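import Pool.Agent.Lib.MP_ccbbf6_gt.ML

/-!
# Q2: the symmetry of `N` (team BL, Level 3.5)

`V v` = the subspace of directions attached to `v`; `NN V v w = |v|² |proj_(V v) w|²`.  If the `V v` form a partition and `NN V · w` is a quadratic form
for every `w`, then `NN V v w = NN V w v`.
-/

open RealInnerProductSpace

namespace Pool.Agent.Lib.MP_ccbbf6_gt.Cl

variable {E : Type*} [NormedAddCommGroup E] [InnerProductSpace ℝ E] [FiniteDimensional ℝ E]

/-- `|v|² |proj_(V v) w|²` -/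
noncomputable def NN (V : E → Submodule ℝ E) (v w : E) : ℝ := ‖v‖ ^ 2 * ‖(V v).starProjection w‖ ^ 2

/-- a partition of `E ∖ {0}` into the subspaces `V v` such that `NN V · w` is a quadratic form -/
structure Part (V : E → Submodule ℝ E) : Prop where
  mem : ∀ v, v ∈ V v
  eq_of_mem : ∀ {v w : E}, w ∈ V v → w ≠ 0 → V w = V v
  quad : ∀ w : E, ∃ B : E →ₗ[ℝ] E →ₗ[ℝ] ℝ, (∀ x y, B x y = B y x) ∧ ∀ v, B v v = NN V v w

variable {V : E → Submodule ℝ E}

theorem NN_nonneg (v w : E) : 0 ≤ NN V v w := by unfold NN; positivity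

theorem NN_le (v w : E) : NN V v w ≤ ‖v‖ ^ 2 * ‖w‖ ^ 2 := by
  unfold NN
  have h : ‖(V v).starProjection w‖ ≤ ‖w‖ := (V v).norm_starProjection_apply_le w
  gcongr

theorem NN_zero_left (w : E) : NN V 0 w = 0 := by simp [NN]

theorem NN_zero_right (v : E) : NN V v 0 = 0 := by simp [NN]

/-- `w ∈ V v`: maximal value -/
theorem NN_of_mem {v w : E} (h : w ∈ V v) : NN V v w = ‖v‖ ^ 2 * ‖w‖ ^ 2 := by
  unfold NN
  rw [Submodule.starProjection_eq_self_iff.mpr h]

theorem Part.mem_symm (h : Part V) {v w : E} (hw : w ∈ V v) : w = 0 ∨ v ∈ V w := by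
  by_cases h0 : w = 0
  · exact Or.inl h0
  · right
    rw [h.eq_of_mem hw h0]
    exact h.mem v

theorem Part.le_symm (h : Part V) (v w : E) : NN V w v ≤ NN V v w := by
  obtain ⟨B, hB, hq⟩ := h.quad w
  obtain ⟨a, ha⟩ : ∃ a, a = (V w).starProjection v := ⟨_, rfl⟩
  have haV : a ∈ V w := by rw [ha]; exact Submodule.starProjection_apply_mem _ _
  have hab : ⟪a, v - a⟫ = 0 := by
    rw [ha]
    exact Submodule.starProjection_inner_eq_zero v _ (Submodule.starProjection_apply_mem _ _) |> fun h1 => by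
      rw [real_inner_comm]; exact h1
  -- the value at `a`
  have hqa : B a a = ‖w‖ ^ 2 * ‖a‖ ^ 2 := by
    rw [hq]
    rcases h.mem_symm haV with h0 | h1
    · rw [h0, NN_zero_left, norm_zero]
      ring
    · rw [NN_of_mem h1, mul_comm]
  have hle : ∀ x, B x x ≤ ‖w‖ ^ 2 * ‖x‖ ^ 2 := fun x => by
    rw [hq, mul_comm]
    exact NN_le x w
  -- the cross term
  have hcross : B a (v - a) = 0 := by
    have key : ∀ t : ℝ, 2 * t * B a (v - a) ≤ t ^ 2 * (‖w‖ ^ 2 * ‖v - a‖ ^ 2 - B (v - a) (v - a)) := by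
      intro t
      have h1 := hle (a + t • (v - a))
      have h2 : B (a + t • (v - a)) (a + t • (v - a))
          = B a a + 2 * t * B a (v - a) + t ^ 2 * B (v - a) (v - a) := by
        simp only [map_add, LinearMap.add_apply, map_smul, LinearMap.smul_apply, smul_eq_mul]
        rw [hB (v - a) a]
        ring
      have h3 : ‖a + t • (v - a)‖ ^ 2 = ‖a‖ ^ 2 + t ^ 2 * ‖v - a‖ ^ 2 := by
        rw [norm_add_sq_real, inner_smul_right, hab, norm_smul, mul_pow, Real.norm_eq_abs, sq_abs]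
        ring
      rw [h2, h3, hqa] at h1
      nlinarith [h1]
    have hc : 0 ≤ ‖w‖ ^ 2 * ‖v - a‖ ^ 2 - B (v - a) (v - a) := sub_nonneg.mpr (hle _)
    obtain ⟨c, hc'⟩ : ∃ c, c = ‖w‖ ^ 2 * ‖v - a‖ ^ 2 - B (v - a) (v - a) := ⟨_, rfl⟩
    obtain ⟨x, hx⟩ : ∃ x, x = B a (v - a) := ⟨_, rfl⟩
    rw [← hc'] at hc
    rw [← hx]
    simp only [← hx, ← hc'] at key
    have h1 := key (x / (c + 1))
    have hc1 : 0 < c + 1 := by linarith
    have h2 : 2 * (x / (c + 1)) * x = 2 * x ^ 2 / (c + 1) := by ring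
    have h3 : (x / (c + 1)) ^ 2 * c = x ^ 2 * c / (c + 1) ^ 2 := by rw [div_pow, div_mul_eq_mul_div]
    rw [h2, h3, div_le_div_iff₀ hc1 (by positivity)] at h1
    have h4 : x ^ 2 * (c + 1) * (c + 2) ≤ 0 := by nlinarith [h1]
    have h5 : 0 ≤ x ^ 2 := sq_nonneg x
    have h6 : x ^ 2 ≤ 0 := by
      by_contra hne
      push Not at hne
      have : 0 < x ^ 2 * (c + 1) * (c + 2) := by positivity
      linarith
    exact pow_eq_zero_iff (two_ne_zero) |>.mp (le_antisymm h6 h5)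
  have hv : B v v = B a a + B (v - a) (v - a) := by
    have h1 : v = a + (v - a) := by abel
    conv_lhs => rw [h1]
    simp only [map_add, LinearMap.add_apply]
    rw [hB (v - a) a, hcross]
    ring
  have hb : 0 ≤ B (v - a) (v - a) := by
    rw [hq]
    exact NN_nonneg _ _
  have h1 : NN V w v = ‖w‖ ^ 2 * ‖a‖ ^ 2 := by rw [NN, ha]
  rw [h1, ← hqa, ← hq v, hv]
  linarith

/-- the symmetry of `N` -/
theorem Part.symm (h : Part V) (v w : E) : NN V v w = NN V w v :=
  le_antisymm (h.le_symm w v) (h.le_symm v w)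

end Pool.Agent.Lib.MP_ccbbf6_gt.Cl
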